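import Pool.Agent.MP_151d89_pr.H21.CorR
import Pool.Agent.MP_151d89_pr.H27.Null
import Pool.Agent.MP_151d89_pr.H45.Flux

/-!
The pair energy for the cut-off which is the minimum of a site function over the tower:
definitions, statements of the rows and small tools.
-/

set_option autoImplicit false
open MeasureTheory Finset

namespace Pool.Agent.MP_151d89_pr.H67E
open Pool.Agent.MP_151d89_pr.H82 Pool.Agent.MP_151d89_pr.H33 Pool.Agent.MP_151d89_pr.H67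
  Pool.Agent.MP_151d89_pr.H30 Pool.Agent.MP_151d89_pr.H27 Pool.Agent.MP_151d89_pr.H45
open Pool.Agent.MP_151d89_pr.H30W (Leg al Hi Lo fl NoDesc)
open Classical

/-- probability that a tower can be moved down -/
noncomputable def pp (μ : Measure Conf) (m : Mv) : ℝ := μ.real {f | Av (-1) m f}

/-- probability that m can be moved down and m' can be moved up -/
noncomputable def pq (μ : Measure Conf) (m m' : Mv) : ℝ := μ.real {f | Av (-1) m f ∧ Av 1 m' f}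

/-- probability of a descent along the edge from z in direction b -/
noncomputable def cc (μ : Measure Conf) (b : Bool) (z : ℤ × ℤ) : ℝ := μ.real {f | Lo b z f}

/-- the minimum of a site function over a tower -/
noncomputable def ps (φ : ℤ × ℤ → ℝ) (m : Mv) : ℝ :=
  (range (m.2.2 + 1)).inf' nonempty_range_add_one fun t : ℕ => φ (pt m.1 m.2.1 t)

/-- the variation along the edge from z in direction b -/
noncomputable def ww (φ : ℤ × ℤ → ℝ) (b : Bool) (z : ℤ × ℤ) : ℝ := |φ (z + dir b) - φ z|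

/-- the oscillation at site number t of a tower -/
noncomputable def os (φ : ℤ × ℤ → ℝ) (m : Mv) (t : ℕ) : ℝ := φ (pt m.1 m.2.1 t) - ps φ m

/-- all towers starting in the box, of length at most 2 n -/
noncomputable def TT (n : ℕ) : Finset Mv := univ ×ˢ box 0 n ×ˢ range (2 * n + 1)

/-- the oscillation energy of single towers -/
noncomputable def QQ (μ : Measure Conf) (n : ℕ) (φ : ℤ × ℤ → ℝ) : ℝ :=
  ∑ m ∈ TT n, pp μ m * ∑ t ∈ range (m.2.2 + 1), os φ m t ^ 2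

/-- the first moment of the part of the towers inside U -/
noncomputable def LL (μ : Measure Conf) (n : ℕ) (U : Finset (ℤ × ℤ)) : ℝ :=
  ∑ m ∈ TT n, pp μ m * ∑ t ∈ range (m.2.2 + 1), ind (pt m.1 m.2.1 t ∈ U)

/-- the truncated flux through the site r -/
noncomputable def FF (μ : Measure Conf) (N : ℕ) (b : Bool) (r : ℤ × ℤ) : ℝ :=
  ∑ i ∈ range N, ∑ j ∈ range N, pp μ (b, pt b r (-i), i + j)

/-- the hypotheses on the site function -/
structure Dat (μ : Measure Conf) (φ : ℤ × ℤ → ℝ) (U : Finset (ℤ × ℤ)) (lam TV : ℝ)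
    (A : Bool → ℤ × ℤ → ℝ) : Prop where
  gib : Gibbs μ
  tri : Triv μ
  h0 : ∀ z, 0 ≤ φ z
  supp : ∀ z, φ z ≠ 0 → z ∈ U
  lam0 : 0 ≤ lam
  A0 : ∀ c z, 0 ≤ A c z
  A1 : ∀ c z, A c z ≤ al μ c z
  A2 : ∀ c z, A c z ≤ al' μ c z
  A3 : ∀ c z, A c (z + dir c) ≤ A c z + 1
  A4 : ∀ c z, A c z ≤ A c (z + dir c) + 1
  hw : ∀ b z, ww φ b z ≤ lam * (A (!b) z + 2 * cc μ b z + 2 * cc μ b (z - dir b))
  tv : ∀ (b : Bool) (S : Finset (ℤ × ℤ)), ∑ z ∈ S, ww φ b z ≤ TV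

/-- the common bound -/
noncomputable def Bd (μ : Measure Conf) (n : ℕ) (φ : ℤ × ℤ → ℝ) (U : Finset (ℤ × ℤ))
    (lam TV : ℝ) : ℝ := QQ μ n φ + lam * TV + lam ^ 2 * (U.card + LL μ n U)

/-- the part of the pair energy carried by the relation R -/
noncomputable def Pc (μ : Measure Conf) (n : ℕ) (φ : ℤ × ℤ → ℝ) (R : Mv → Mv → Prop) : ℝ :=
  ∑ m ∈ II n, ∑ m' ∈ II n, if R m m' then (ps φ m - ps φ m') ^ 2 * pq μ m m' else 0

/-- the up tower follows the down tower -/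
def R1 (m m' : Mv) : Prop := m'.1 = m.1 ∧ m'.2.1 = pt m.1 m.2.1 (m.2.2 + 1)

/-- the up tower ends one step before the start of the down tower -/
def R2 (c : Bool) (m m' : Mv) : Prop := pt m'.1 m'.2.1 m'.2.2 + dir c = m.2.1

/-- parallel towers; s = 1 or s = -1 is the side -/
def R3 (s : ℤ) (m m' : Mv) : Prop :=
  m'.1 = m.1 ∧ ∃ i : ℕ, i ≤ m'.2.2 ∧ m'.2.2 ≤ i + m.2.2 ∧ pt m.1 m'.2.1 i = pt (!m.1) m.2.1 s

/-- the up tower starts at the side of the start of the down tower -/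
def R4 (m m' : Mv) : Prop := m'.1 = !m.1 ∧ m'.2.1 = m.2.1 + dir m'.1

/-- the up tower ends one step after the end of the down tower -/
def R7 (m m' : Mv) : Prop := m'.1 = !m.1 ∧ pt m'.1 m'.2.1 m'.2.2 = pt m.1 m.2.1 (m.2.2 + 1)

/-- the form of a pair row -/
def PStmt (R : Mv → Mv → Prop) : Prop :=
  ∀ (μ : Measure Conf) (φ : ℤ × ℤ → ℝ) (U : Finset (ℤ × ℤ)) (lam TV : ℝ) (A : Bool → ℤ × ℤ → ℝ),
    Dat μ φ U lam TV A → ∀ n, Pc μ n φ R ≤ 200 * Bd μ n φ U lam TV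

/-- parallel towers, the down tower has the larger value -/
def R3a (φ : ℤ × ℤ → ℝ) (s : ℤ) (m m' : Mv) : Prop := R3 s m m' ∧ ps φ m' < ps φ m

/-- parallel towers, the up tower has the larger value -/
def R3b (φ : ℤ × ℤ → ℝ) (s : ℤ) (m m' : Mv) : Prop := R3 s m m' ∧ ps φ m < ps φ m'

/-- the form of a pair row whose relation depends on the site function -/
def PStmt' (R : (ℤ × ℤ → ℝ) → Mv → Mv → Prop) : Prop :=
  ∀ (μ : Measure Conf) (φ : ℤ × ℤ → ℝ) (U : Finset (ℤ × ℤ)) (lam TV : ℝ) (A : Bool → ℤ × ℤ → ℝ),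
    Dat μ φ U lam TV A → ∀ n, Pc μ n φ (R φ) ≤ 200 * Bd μ n φ U lam TV

/-- Row Q: the oscillation energy -/
def QStmt : Prop :=
  ∃ C : ℝ, 0 ≤ C ∧ ∀ (μ : Measure Conf) (φ : ℤ × ℤ → ℝ) (U : Finset (ℤ × ℤ)) (lam TV : ℝ)
    (A : Bool → ℤ × ℤ → ℝ), Dat μ φ U lam TV A → ∀ FM : ℝ,
      (∀ N b, ∑ r ∈ U, FF μ N b r ≤ FM) → ∀ n,
        Bd μ n φ U lam TV ≤ C * (lam * TV + lam ^ 2 * (U.card + FM))

/-- the result of the block -/
def EStmt : Prop :=
  ∃ C : ℝ, 0 ≤ C ∧ ∀ (μ : Measure Conf) (φ : ℤ × ℤ → ℝ) (U : Finset (ℤ × ℤ)) (lam TV : ℝ)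
    (A : Bool → ℤ × ℤ → ℝ), Dat μ φ U lam TV A → ∀ FM : ℝ,
      (∀ N b, ∑ r ∈ U, FF μ N b r ≤ FM) → ∀ n,
        Pair μ n (ps φ) ≤ C * (lam * TV + lam ^ 2 * (U.card + FM))

variable {μ : Measure Conf} {φ : ℤ × ℤ → ℝ} {U : Finset (ℤ × ℤ)} {lam TV : ℝ}
  {A : Bool → ℤ × ℤ → ℝ}

theorem pp_nonneg (μ : Measure Conf) (m : Mv) : 0 ≤ pp μ m := measureReal_nonneg

theorem pq_nonneg (μ : Measure Conf) (m m' : Mv) : 0 ≤ pq μ m m' := measureReal_nonneg

theorem cc_nonneg (μ : Measure Conf) (b : Bool) (z : ℤ × ℤ) : 0 ≤ cc μ b z := measureReal_nonneg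

theorem cc_le (hμ : Gibbs μ) (b : Bool) (z : ℤ × ℤ) : cc μ b z ≤ 1 := by
  have := hμ.1
  exact measureReal_le_one

theorem ww_nonneg (φ : ℤ × ℤ → ℝ) (b : Bool) (z : ℤ × ℤ) : 0 ≤ ww φ b z := abs_nonneg _

theorem ind_nonneg (p : Prop) : 0 ≤ ind p := by unfold ind; split_ifs <;> norm_num

theorem ps_le (φ : ℤ × ℤ → ℝ) (m : Mv) {t : ℕ} (h : t ≤ m.2.2) : ps φ m ≤ φ (pt m.1 m.2.1 t) :=
  inf'_le (fun t : ℕ => φ (pt m.1 m.2.1 t)) (mem_range.2 (by omega))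

theorem ps_ex (φ : ℤ × ℤ → ℝ) (m : Mv) : ∃ t : ℕ, t ≤ m.2.2 ∧ ps φ m = φ (pt m.1 m.2.1 t) := by
  obtain ⟨t, h1, h2⟩ := exists_mem_eq_inf' (s := range (m.2.2 + 1)) nonempty_range_add_one
    fun t : ℕ => φ (pt m.1 m.2.1 t)
  exact ⟨t, by have := mem_range.1 h1; omega, h2⟩

theorem os_nonneg (φ : ℤ × ℤ → ℝ) (m : Mv) {t : ℕ} (h : t ≤ m.2.2) : 0 ≤ os φ m t :=
  sub_nonneg.2 (ps_le φ m h)

theorem ps_nonneg (h : ∀ z, 0 ≤ φ z) (m : Mv) : 0 ≤ ps φ m := by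
  obtain ⟨t, -, e⟩ := ps_ex φ m
  rw [e]
  exact h _

/-- a tower with a positive value lies in the support -/
theorem Dat.sub (h : Dat μ φ U lam TV A) {m m' : Mv} (e : ps φ m' < ps φ m) {t : ℕ}
    (ht : t ≤ m.2.2) : pt m.1 m.2.1 t ∈ U :=
  h.supp _ (((ps_nonneg h.h0 m').trans_lt e).trans_le (ps_le φ m ht)).ne'

theorem mem_TT {n : ℕ} {m : Mv} : m ∈ TT n ↔ nrm m.2.1 ≤ n ∧ m.2.2 ≤ 2 * n := by
  simp only [TT, mem_product, mem_univ, true_and, mem_box0, mem_range, Nat.lt_succ_iff]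

theorem II_TT {n : ℕ} {m : Mv} (h : m ∈ II n) : m ∈ TT n := (mem_filter.1 h).1

theorem Dat.tv0 (h : Dat μ φ U lam TV A) : 0 ≤ TV := by simpa using h.tv true ∅

theorem QQ_nonneg (μ : Measure Conf) (n : ℕ) (φ : ℤ × ℤ → ℝ) : 0 ≤ QQ μ n φ :=
  sum_nonneg fun m _ => mul_nonneg (pp_nonneg μ m) (sum_nonneg fun _ _ => sq_nonneg _)

theorem LL_nonneg (μ : Measure Conf) (n : ℕ) (U : Finset (ℤ × ℤ)) : 0 ≤ LL μ n U :=
  sum_nonneg fun m _ => mul_nonneg (pp_nonneg μ m) (sum_nonneg fun _ _ => ind_nonneg _)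

theorem Dat.w4 (h : Dat μ φ U lam TV A) (b : Bool) (z : ℤ × ℤ) :
    ww φ b z ≤ lam * (A (!b) z + 4) := by
  refine (h.hw b z).trans (mul_le_mul_of_nonneg_left ?_ h.lam0)
  have := cc_le h.gib b z
  have := cc_le h.gib b (z - dir b)
  linarith

/-- an edge term whose weight is at most one and is small against the rods -/
theorem Dat.edge (h : Dat μ φ U lam TV A) (b : Bool) (z : ℤ × ℤ) {ω : ℝ} (h0 : 0 ≤ ω)
    (h1 : ω ≤ 1) (h2 : ω * A (!b) z ≤ 1) : ww φ b z ^ 2 * ω ≤ 5 * lam * ww φ b z := by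
  have a := mul_le_mul_of_nonneg_right (h.w4 b z) h0
  have a1 : ww φ b z * ω ≤ 5 * lam := by nlinarith [h.lam0]
  nlinarith [ww_nonneg φ b z]

/-- an edge term with a general weight -/
theorem Dat.edge' (h : Dat μ φ U lam TV A) (b : Bool) (z : ℤ × ℤ) :
    ww φ b z ^ 2 ≤ 2 * lam * ww φ b z * A (!b) z + 32 * lam ^ 2 ∧
      ww φ b z ^ 2 ≤ 2 * lam ^ 2 * A (!b) z ^ 2 + 32 * lam ^ 2 := by
  have a := h.w4 b z
  have a0 := ww_nonneg φ b z
  have a1 := mul_nonneg h.lam0 (h.A0 (!b) z)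
  have a2 := h.lam0
  constructor
  · rcases le_total (ww φ b z) (2 * (lam * A (!b) z)) with e | e
    · nlinarith [sq_nonneg lam]
    · have : ww φ b z ≤ 8 * lam := by nlinarith
      rcases le_total (ww φ b z) (4 * lam) with e' | e'
      · nlinarith [mul_nonneg a0 a1]
      · nlinarith [mul_nonneg a0 a1]
  · nlinarith [sq_nonneg (lam * A (!b) z - 4 * lam)]

/-- the west or south neighbour is lower with small probability on a rod -/
theorem Dat.a0 (h : Dat μ φ U lam TV A) (c : Bool) (z : ℤ × ℤ) :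
    μ.real {f | ¬ Hi c z f} * A c z ≤ 1 :=
  (mul_le_mul_of_nonneg_left (h.A1 c z) measureReal_nonneg).trans (ah0 h.gib h.tri c z)

/-- the east or north neighbour is higher with small probability on a rod -/
theorem Dat.a0' (h : Dat μ φ U lam TV A) (c : Bool) (z : ℤ × ℤ) :
    μ.real {f | ¬ Lo c z f} * A c z ≤ 1 :=
  (mul_le_mul_of_nonneg_left (h.A2 c z) measureReal_nonneg).trans (ah0' h.gib h.tri c z)

/-- comparison of sums along a map which is injective on the nonzero terms -/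
theorem sum_inj {α β : Type} (s : Finset α) (t : Finset β) (i : α → β) {g : α → ℝ} {h : β → ℝ}
    (hi : ∀ a ∈ s, g a ≠ 0 → i a ∈ t)
    (inj : ∀ a ∈ s, ∀ a' ∈ s, g a ≠ 0 → g a' ≠ 0 → i a = i a' → a = a')
    (le : ∀ a ∈ s, g a ≠ 0 → g a ≤ h (i a)) (h0 : ∀ b ∈ t, 0 ≤ h b) :
    ∑ a ∈ s, g a ≤ ∑ b ∈ t, h b := by
  rw [← sum_filter_ne_zero]
  calc ∑ a ∈ s with g a ≠ 0, g a ≤ ∑ a ∈ s with g a ≠ 0, h (i a) :=
        sum_le_sum fun a ha => le a (mem_filter.1 ha).1 (mem_filter.1 ha).2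
    _ = ∑ b ∈ (s.filter fun a => g a ≠ 0).image i, h b := by
        rw [sum_image]
        intro a ha a' ha' e
        exact inj a (mem_filter.1 ha).1 a' (mem_filter.1 ha').1 (mem_filter.1 ha).2
          (mem_filter.1 ha').2 e
    _ ≤ ∑ b ∈ t, h b := by
        refine sum_le_sum_of_subset_of_nonneg (fun b hb => ?_) fun b hb _ => h0 b hb
        obtain ⟨a, ha, rfl⟩ := mem_image.1 hb
        exact hi a (mem_filter.1 ha).1 (mem_filter.1 ha).2

end Pool.Agent.MP_151d89_pr.H67E
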