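import Mathlib

/-!
The real inequality behind the oscillation energy along one line.
-/

set_option autoImplicit false
open Finset

namespace Pool.Agent.MP_151d89_pr.H67E

/-- a summable weight -/
noncomputable def om (i : ℕ) : ℝ := 1 / ((i : ℝ) + 1) ^ 2

theorem om_pos (i : ℕ) : 0 < om i := by unfold om; positivity

theorem om_sum' (M : ℕ) : ∑ i ∈ range M, om i ≤ 2 - 2 / ((M : ℝ) + 1) := by
  induction M with
  | zero => simp
  | succ M ih =>
    rw [sum_range_succ]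
    have : om M ≤ 2 / ((M : ℝ) + 1) - 2 / (((M + 1 : ℕ) : ℝ) + 1) := by
      unfold om
      push_cast
      rw [div_sub_div _ _ (by positivity) (by positivity), div_le_div_iff₀ (by positivity)
        (by positivity)]
      nlinarith [(Nat.cast_nonneg M : (0 : ℝ) ≤ M)]
    linarith

theorem om_sum (M : ℕ) : ∑ i ∈ range M, om i ≤ 2 :=
  (om_sum' M).trans (sub_le_self _ (by positivity))

theorem om_anti {i j : ℕ} (h : i ≤ j) : om j ≤ om i := by
  unfold om
  have : (i : ℝ) ≤ j := by exact_mod_cast h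
  gcongr

theorem cube_le (d : ℕ) : (d + 1) ^ 3 ≤ 8 * 2 ^ d := by
  induction d with
  | zero => norm_num
  | succ d ih =>
    rcases Nat.lt_or_ge d 3 with h | h
    · interval_cases d <;> norm_num
    · obtain ⟨e, rfl⟩ := Nat.exists_eq_add_of_le h
      have : (3 + e + 1 + 1) ^ 3 ≤ 2 * (3 + e + 1) ^ 3 := by
        ring_nf
        nlinarith [Nat.zero_le e, Nat.zero_le (e ^ 2), Nat.zero_le (e ^ 3)]
      rw [pow_succ 2]
      omega

theorem geo_le (n : ℕ) : (n : ℝ) * (1 / 2) ^ (n / 16) ≤ 32768 * om n := by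
  have h1 : n * (n + 1) ^ 2 ≤ 32768 * 2 ^ (n / 16) := by
    have a := cube_le (n / 16)
    have b : n + 1 ≤ 16 * (n / 16 + 1) := by omega
    calc n * (n + 1) ^ 2 ≤ (n + 1) ^ 3 := by nlinarith [Nat.zero_le n]
      _ ≤ (16 * (n / 16 + 1)) ^ 3 := Nat.pow_le_pow_left b 3
      _ = 4096 * (n / 16 + 1) ^ 3 := by ring
      _ ≤ _ := by omega
  have h2 : (n : ℝ) * (n + 1) ^ 2 ≤ 32768 * 2 ^ (n / 16) := by exact_mod_cast h1
  unfold om
  rw [one_div_pow, mul_one_div, mul_one_div, div_le_div_iff₀ (by positivity) (by positivity)]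
  exact h2

/-- the tail of a finite sum -/
noncomputable def FT (v : ℕ → ℝ) (N t : ℕ) : ℝ := ∑ k ∈ Ico t N, v k

theorem swapA (v u : ℕ → ℝ) (N : ℕ) :
    ∑ k ∈ range N, v k * ∑ t ∈ range (k + 1), u t = ∑ t ∈ range N, u t * FT v N t := by
  simp only [FT, mul_sum]
  rw [sum_comm' (t' := range N) (s' := fun t => Ico t N)]
  · exact sum_congr rfl fun _ _ => sum_congr rfl fun _ _ => mul_comm _ _
  · intro k t
    simp only [mem_range, mem_Ico]
    omega

theorem sq_sum (w : ℕ → ℝ) (k : ℕ) : (∑ t ∈ range k, w t) ^ 2 =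
    ∑ t ∈ range k, w t * (w t + 2 * ∑ s ∈ range t, w s) := by
  induction k with
  | zero => simp
  | succ k ih => rw [sum_range_succ, sum_range_succ, ← ih]; ring

theorem FT_le {v G : ℕ → ℝ} (G0 : ∀ k, 0 ≤ G k) (hG : ∀ k, G k = v k + G (k + 1)) (N t : ℕ) :
    FT v N t ≤ G t := by
  have key : ∀ d, ∑ k ∈ Ico t (t + d), v k + G (t + d) = G t := by
    intro d
    induction d with
    | zero => simp
    | succ d ih => rw [← add_assoc t, sum_Ico_succ_top (by omega), ← ih, hG (t + d)]; ring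
  rcases le_total t N with h | h
  · obtain ⟨d, rfl⟩ := Nat.exists_eq_add_of_le h
    have := key d
    have := G0 (t + d)
    unfold FT
    linarith
  · unfold FT
    rw [Ico_eq_empty (by omega), sum_empty]
    exact G0 t

/-- summation of the hazard bound against a monotone weight -/
theorem haz_sum {v u P : ℕ → ℝ} {lam : ℝ} (hl : 0 ≤ lam) (v0 : ∀ k, 0 ≤ v k) (P0 : ∀ k, 0 ≤ P k)
    (Pm : ∀ k, P k ≤ P (k + 1)) (u0 : 0 ≤ u 0)
    (hu : ∀ t, u (t + 1) ≤ lam * (3 * v t + 2 * v (t + 1))) (N : ℕ) :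
    ∑ t ∈ range N, u t * P t ≤ u 0 * P 0 + 5 * lam * ∑ k ∈ range N, v k * P (k + 1) := by
  rcases N with _ | M
  · simpa using mul_nonneg u0 (P0 0)
  rw [sum_range_succ']
  have a1 : ∑ t ∈ range M, v t * P (t + 1) ≤ ∑ k ∈ range (M + 1), v k * P (k + 1) := by
    rw [sum_range_succ]
    linarith [mul_nonneg (v0 M) (P0 (M + 1))]
  have a2 : ∑ t ∈ range M, v (t + 1) * P (t + 1 + 1) ≤ ∑ k ∈ range (M + 1), v k * P (k + 1) := by
    rw [sum_range_succ']
    linarith [mul_nonneg (v0 0) (P0 (0 + 1))]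
  have a3 : ∑ t ∈ range M, u (t + 1) * P (t + 1) ≤
      lam * (3 * ∑ t ∈ range M, v t * P (t + 1) + 2 * ∑ t ∈ range M, v (t + 1) * P (t + 1 + 1)) := by
    rw [mul_sum, mul_sum, ← sum_add_distrib, mul_sum]
    refine sum_le_sum fun t _ => ?_
    have b1 := mul_le_mul_of_nonneg_right (hu t) (P0 (t + 1))
    have b2 := mul_le_mul_of_nonneg_left (mul_le_mul_of_nonneg_left (Pm (t + 1)) (v0 (t + 1))) hl
    nlinarith
  nlinarith [mul_le_mul_of_nonneg_left a1 hl, mul_le_mul_of_nonneg_left a2 hl]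

theorem conv_le {v : ℕ → ℝ} (v0 : ∀ k, 0 ≤ v k) (N : ℕ) :
    ∑ t ∈ range N, ∑ i ∈ range t, om i * v (t - 1 - i) ≤ 2 * ∑ k ∈ range N, v k := by
  rcases N with _ | M
  · simp
  rw [sum_range_succ', sum_range_zero, add_zero]
  simp only [Nat.add_sub_cancel]
  rw [sum_range_diag_flip M fun i e => om i * v e]
  calc _ ≤ ∑ i ∈ range M, om i * ∑ k ∈ range (M + 1), v k := by
        refine sum_le_sum fun i _ => ?_
        rw [← mul_sum]
        exact mul_le_mul_of_nonneg_left (sum_le_sum_of_subset_of_nonneg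
          (range_subset_range.2 (by omega)) fun k _ _ => v0 k) (om_pos i).le
    _ ≤ _ := by
        rw [← sum_mul]
        exact mul_le_mul_of_nonneg_right (om_sum M) (sum_nonneg fun k _ => v0 k)

/-- the diagonal term at one site -/
theorem diag_le {v : ℕ → ℝ} {lam g w a : ℝ} {t : ℕ} (hl : 0 ≤ lam) (v0 : ∀ k, 0 ≤ v k)
    (v1 : ∀ k, v k ≤ 1) (g0 : 0 ≤ g) (w0 : 0 ≤ w) (a0 : 0 ≤ a) (hw : w ≤ lam * (a + 4))
    (h0 : t = 0 → g * a ≤ 2) (hcor : ∀ l : ℕ, l + 1 ≤ t →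
      g * (a - l) ≤ (1 / 2) ^ ((l + 1) / 16) * ∑ j ∈ range (l + 1), v (t - 1 - j)) :
    w * (g * a) ≤ 65536 * (om t * w) + 393216 * (lam * ∑ i ∈ range t, om i * v (t - 1 - i)) := by
  have s0 : 0 ≤ lam * ∑ i ∈ range t, om i * v (t - 1 - i) :=
    mul_nonneg hl (sum_nonneg fun i _ => mul_nonneg (om_pos i).le (v0 _))
  have o0 := mul_nonneg (om_pos t).le w0
  rcases Nat.eq_zero_or_pos t with e | e
  · have := mul_le_mul_of_nonneg_left (h0 e) w0
    have o1 : om t = 1 := by simp [e, om]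
    rw [o1] at *
    linarith
  have f1 := Nat.floor_le (a := a / 2) (by positivity)
  have f2 := Nat.lt_floor_add_one (a / 2)
  rcases le_total t (⌊a / 2⌋₊ + 1) with h | h
  · obtain ⟨l, rfl⟩ : ∃ l, t = l + 1 := ⟨t - 1, by omega⟩
    have b1 := hcor l le_rfl
    have b2 : (l : ℝ) ≤ ⌊a / 2⌋₊ := by exact_mod_cast (by omega : l ≤ ⌊a / 2⌋₊)
    have b3 : ∑ j ∈ range (l + 1), v (l + 1 - 1 - j) ≤ ((l + 1 : ℕ) : ℝ) := by
      simpa using sum_le_card_nsmul (range (l + 1)) _ 1 fun j _ => v1 (l + 1 - 1 - j)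
    have b4 := geo_le (l + 1)
    have b5 := mul_le_mul_of_nonneg_left b3
      (by positivity : (0 : ℝ) ≤ (1 / 2) ^ ((l + 1) / 16))
    have b6 : g * a ≤ 65536 * om (l + 1) := by
      nlinarith [mul_le_mul_of_nonneg_left (by linarith : a / 2 ≤ a - l) g0]
    nlinarith [mul_le_mul_of_nonneg_left b6 w0]
  · set l := ⌊a / 2⌋₊
    have b1 := hcor l h
    have b4 := geo_le (l + 1)
    have b2 : om (l + 1) * ∑ j ∈ range (l + 1), v (t - 1 - j) ≤
        ∑ i ∈ range t, om i * v (t - 1 - i) := by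
      rw [mul_sum]
      refine (sum_le_sum fun j hj => mul_le_mul_of_nonneg_right (om_anti (mem_range.1 hj).le)
        (v0 _)).trans (sum_le_sum_of_subset_of_nonneg (range_subset_range.2 h)
          fun i _ _ => mul_nonneg (om_pos i).le (v0 _))
    have s1 : 0 ≤ ∑ j ∈ range (l + 1), v (t - 1 - j) := sum_nonneg fun j _ => v0 _
    have b3 : g * a ≤ 2 * ((1 / 2) ^ ((l + 1) / 16) * ∑ j ∈ range (l + 1), v (t - 1 - j)) := by
      nlinarith [mul_le_mul_of_nonneg_left (by linarith : a / 2 ≤ a - l) g0]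
    have b5 : w ≤ 6 * lam * ((l + 1 : ℕ) : ℝ) := by
      push_cast
      nlinarith [(Nat.cast_nonneg l : (0 : ℝ) ≤ l)]
    have b6 := mul_le_mul b5 b3 (mul_nonneg g0 a0) (by positivity)
    have b7 := mul_le_mul_of_nonneg_left (mul_le_mul_of_nonneg_right b4 s1) hl
    have b8 := mul_le_mul_of_nonneg_left b2 hl
    nlinarith

/-- the energy along one half line -/
theorem real_Q {v G w a c d : ℕ → ℝ} {lam : ℝ} (N : ℕ) (hl : 0 ≤ lam) (v0 : ∀ k, 0 ≤ v k)
    (v1 : ∀ k, v k ≤ 1) (G0 : ∀ k, 0 ≤ G k) (hG : ∀ k, G k = v k + G (k + 1))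
    (w0 : ∀ t, 0 ≤ w t) (a0 : ∀ t, 0 ≤ a t) (c1 : ∀ t, c t ≤ 1) (d0 : ∀ t, 0 ≤ d t)
    (d1 : ∀ t, d t ≤ 1) (c0 : ∀ t, 0 ≤ c t)
    (hw : ∀ t, w t ≤ lam * (a t + 2 * c t + 2 * d t)) (h0 : G 0 * a 0 ≤ 2)
    (hc : ∀ t, G t * c t ≤ v t) (hd : ∀ t, G t * d (t + 1) ≤ v t)
    (hcor : ∀ t l : ℕ, l + 1 ≤ t →
      G t * (a t - l) ≤ (1 / 2) ^ ((l + 1) / 16) * ∑ j ∈ range (l + 1), v (t - 1 - j)) :
    ∑ k ∈ range N, v k * (∑ t ∈ range (k + 1), w t) ^ 2 ≤
      1000000 * (lam * ∑ t ∈ range N, om t * w t + lam ^ 2 * (1 + ∑ k ∈ range N, v k)) := by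
  have F0 : ∀ t, 0 ≤ FT v N t := fun t => sum_nonneg fun k _ => v0 k
  have FG := FT_le G0 hG N
  have V0 : 0 ≤ ∑ k ∈ range N, v k := sum_nonneg fun k _ => v0 k
  have e0 : FT v N 0 = ∑ k ∈ range N, v k := by rw [FT, range_eq_Ico]
  have u1 : ∀ t, w (t + 1) * FT v N (t + 1) ≤ lam * (3 * v t + 2 * v (t + 1)) := by
    intro t
    have b1 := hcor (t + 1) 0 (by omega)
    simp only [Nat.cast_zero, sub_zero, zero_add, Nat.reduceDiv, pow_zero, one_mul,
      sum_range_one, Nat.add_sub_cancel, Nat.sub_zero] at b1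
    have b2 := hc (t + 1)
    have b3 : G (t + 1) * d (t + 1) ≤ v t := by
      refine le_trans (mul_le_mul_of_nonneg_right ?_ (d0 (t + 1))) (hd t)
      linarith [hG t, v0 t]
    calc _ ≤ lam * (a (t + 1) + 2 * c (t + 1) + 2 * d (t + 1)) * G (t + 1) :=
          mul_le_mul (hw _) (FG _) (F0 _) ((w0 _).trans (hw _))
      _ ≤ _ := by nlinarith
  have u0 : w 0 * FT v N 0 ≤ lam * (2 + 4 * ∑ k ∈ range N, v k) := by
    have b1 := mul_le_mul_of_nonneg_right (hw 0) (F0 0)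
    have b2 := mul_le_mul_of_nonneg_right (FG 0) (a0 0)
    have b3 := mul_le_mul_of_nonneg_right (c1 0) (F0 0)
    have b4 := mul_le_mul_of_nonneg_right (d1 0) (F0 0)
    rw [← e0]
    nlinarith
  have T1 : ∑ t ∈ range N, w t * FT v N t ≤ lam * (2 + 9 * ∑ k ∈ range N, v k) := by
    have := haz_sum (u := fun t => w t * FT v N t) (P := fun _ => 1) hl v0 (fun _ => zero_le_one)
      (fun _ => le_rfl) (mul_nonneg (w0 0) (F0 0)) u1 N
    simp only [mul_one] at this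
    linarith
  have T2 : ∑ t ∈ range N, w t * FT v N t * ∑ s ∈ range t, w s ≤
      5 * lam * ∑ t ∈ range N, w t * FT v N t := by
    have := haz_sum (u := fun t => w t * FT v N t) (P := fun t => ∑ s ∈ range t, w s) hl v0
      (fun _ => sum_nonneg fun s _ => w0 s)
      (fun k => by rw [sum_range_succ]; linarith [w0 k]) (mul_nonneg (w0 0) (F0 0)) u1 N
    rwa [sum_range_zero, mul_zero, zero_add, swapA] at this
  have w4 : ∀ t, w t ≤ lam * (a t + 4) := fun t =>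
    (hw t).trans (mul_le_mul_of_nonneg_left (by linarith [c1 t, d1 t]) hl)
  have T3 : ∑ t ∈ range N, w t * w t * FT v N t ≤ lam * (65536 * ∑ t ∈ range N, om t * w t +
      393216 * (lam * ∑ t ∈ range N, ∑ i ∈ range t, om i * v (t - 1 - i)) +
        4 * ∑ t ∈ range N, w t * FT v N t) := by
    simp only [mul_sum (range N), ← sum_add_distrib]
    refine sum_le_sum fun t _ => ?_
    have b1 := diag_le (t := t) hl v0 v1 (G0 t) (w0 t) (a0 t) (w4 t) (fun e => e ▸ h0) (hcor t)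
    have b2 := mul_le_mul_of_nonneg_left (w4 t) (mul_nonneg (w0 t) (F0 t))
    have b3 := mul_le_mul_of_nonneg_left (mul_le_mul_of_nonneg_left
      (mul_le_mul_of_nonneg_right (FG t) (a0 t)) (w0 t)) hl
    nlinarith [mul_le_mul_of_nonneg_left b1 hl]
  have T4 := mul_le_mul_of_nonneg_left (mul_le_mul_of_nonneg_left (conv_le v0 N) hl) hl
  have O0 : 0 ≤ lam * ∑ t ∈ range N, om t * w t :=
    mul_nonneg hl (sum_nonneg fun t _ => mul_nonneg (om_pos t).le (w0 t))
  simp only [sq_sum w]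
  rw [swapA]
  have e : ∑ t ∈ range N, w t * (w t + 2 * ∑ s ∈ range t, w s) * FT v N t =
      ∑ t ∈ range N, w t * w t * FT v N t +
        2 * ∑ t ∈ range N, w t * FT v N t * ∑ s ∈ range t, w s := by
    rw [mul_sum, ← sum_add_distrib]
    exact sum_congr rfl fun _ _ => by ring
  rw [e]
  nlinarith [mul_le_mul_of_nonneg_left T1 hl, sq_nonneg lam, mul_nonneg (sq_nonneg lam) V0]

end Pool.Agent.MP_151d89_pr.H67E
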