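import Pool.Agent.MP_151d89_pr.H67E.Spec
import Pool.Agent.MP_151d89_pr.H67E.Real

/-!
Row Q: the oscillation energy of single towers.
-/

set_option autoImplicit false
open MeasureTheory Finset

namespace Pool.Agent.MP_151d89_pr.H67E
open Pool.Agent.MP_151d89_pr.H82 Pool.Agent.MP_151d89_pr.H33 Pool.Agent.MP_151d89_pr.H67
  Pool.Agent.MP_151d89_pr.H30 Pool.Agent.MP_151d89_pr.H45
open Pool.Agent.MP_151d89_pr.H30.RunAux (pt_pt)
open Pool.Agent.MP_151d89_pr.H27 (Rdg Vly)
open Pool.Agent.MP_151d89_pr.H30W (Leg al Hi Lo fl NoDesc)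
open Classical

variable {μ : Measure Conf} {φ : ℤ × ℤ → ℝ} {U : Finset (ℤ × ℤ)} {lam TV : ℝ}
  {A : Bool → ℤ × ℤ → ℝ}

/-- towers with a marked site, indexed by the site -/
theorem rei (μ : Measure Conf) (n : ℕ) (U : Finset (ℤ × ℤ)) {h : Mv → ℕ → ℝ}
    {H : Bool → ℤ × ℤ → ℕ → ℕ → ℝ} (H0 : ∀ b r i j, 0 ≤ H b r i j)
    (hU : ∀ (m : Mv) (t : ℕ), t ≤ m.2.2 → h m t ≠ 0 → pt m.1 m.2.1 t ∈ U)
    (hle : ∀ b r (i j : ℕ), h (b, pt b r (-i), i + j) i ≤ H b r i j) :
    ∑ m ∈ TT n, pp μ m * ∑ t ∈ range (m.2.2 + 1), h m t ≤ ∑ b, ∑ r ∈ U,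
      ∑ i ∈ range (2 * n + 1), ∑ j ∈ range (2 * n + 1),
        pp μ (b, pt b r (-i), i + j) * H b r i j := by
  simp only [mul_sum]
  rw [sum_sigma']
  simp only [← sum_product']
  refine sum_inj _ _ (fun a => (a.1.1, pt a.1.1 a.1.2.1 a.2, a.2, a.1.2.2 - a.2)) ?_ ?_ ?_
    fun q _ => mul_nonneg (pp_nonneg _ _) (H0 _ _ _ _)
  · rintro ⟨m, t⟩ ha h0
    simp only [mem_sigma, mem_range, mem_TT] at ha
    simp only [mem_product, mem_univ, true_and, mem_range]
    exact ⟨hU m t (by omega) (right_ne_zero_of_mul h0), by omega, by omega⟩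
  · rintro ⟨⟨b, x, l⟩, t⟩ ha ⟨⟨b', x', l'⟩, t'⟩ ha' - - e
    simp only [mem_sigma, mem_range] at ha ha'
    simp only [Prod.mk.injEq] at e
    obtain ⟨rfl, e1, rfl, e2⟩ := e
    obtain rfl : l = l' := by omega
    obtain rfl : x = x' := add_right_cancel e1
    rfl
  · rintro ⟨⟨b, x, l⟩, t⟩ ha -
    simp only [mem_sigma, mem_range] at ha
    have := hle b (pt b x t) t (l - t)
    simp only [pt_pt, add_neg_cancel, pt_zero, show t + (l - t) = l by omega] at this ⊢
    exact mul_le_mul_of_nonneg_left this (pp_nonneg _ _)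

theorem ll_le {FM : ℝ} (hF : ∀ N b, ∑ r ∈ U, FF μ N b r ≤ FM) (n : ℕ) : LL μ n U ≤ 2 * FM := by
  refine (rei μ n U (h := fun m t => ind (pt m.1 m.2.1 t ∈ U)) (H := fun _ _ _ _ => 1)
    (fun _ _ _ _ => zero_le_one) (fun m t _ h => by_contra fun e => h (if_neg e))
    fun _ _ _ _ => by unfold ind; split_ifs <;> norm_num).trans ?_
  simp only [mul_one, Fintype.sum_bool]
  have a1 := hF (2 * n + 1) true
  have a2 := hF (2 * n + 1) false
  unfold FF at a1 a2
  linarith

/-- the variation along the edge before site number t of the half line going down -/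
noncomputable def wd (φ : ℤ × ℤ → ℝ) (b : Bool) (r : ℤ × ℤ) (t : ℕ) : ℝ :=
  if t = 0 then 0 else ww φ b (pt b r (-t))

theorem wd_nonneg (φ : ℤ × ℤ → ℝ) (b : Bool) (r : ℤ × ℤ) (t : ℕ) : 0 ≤ wd φ b r t := by
  unfold wd
  split_ifs
  exacts [le_rfl, ww_nonneg _ _ _]

theorem var_up (φ : ℤ × ℤ → ℝ) (b : Bool) (r : ℤ × ℤ) (k : ℕ) :
    φ r - φ (pt b r k) ≤ ∑ t ∈ range k, ww φ b (pt b r t) := by
  induction k with
  | zero => simp [pt_zero]
  | succ k ih =>
    have := neg_abs_le (φ (pt b r k + dir b) - φ (pt b r k))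
    rw [sum_range_succ, Nat.cast_succ, ← pt_add]
    unfold ww at *
    linarith

theorem var_dn (φ : ℤ × ℤ → ℝ) (b : Bool) (r : ℤ × ℤ) (k : ℕ) :
    φ r - φ (pt b r (-k)) ≤ ∑ t ∈ range (k + 1), wd φ b r t := by
  induction k with
  | zero => simp [pt_zero, wd]
  | succ k ih =>
    have := le_abs_self (φ (pt b r (-(k + 1 : ℕ)) + dir b) - φ (pt b r (-(k + 1 : ℕ))))
    rw [sum_range_succ, wd, if_neg (Nat.succ_ne_zero k), ww]
    have e : pt b r (-(k + 1 : ℕ)) + dir b = pt b r (-k) := by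
      rw [pt_add]; congr 1; push_cast; ring
    rw [e] at this ⊢
    linarith

theorem os_le (φ : ℤ × ℤ → ℝ) (b : Bool) (r : ℤ × ℤ) (i j : ℕ) :
    os φ (b, pt b r (-i), i + j) i ^ 2 ≤ (∑ t ∈ range (j + 1), ww φ b (pt b r t)) ^ 2 +
      (∑ t ∈ range (i + 1), wd φ b r t) ^ 2 := by
  have o0 := os_nonneg φ (b, pt b r (-i), i + j) (t := i) (Nat.le_add_right i j)
  obtain ⟨s, hs, e⟩ := ps_ex φ (b, pt b r (-i), i + j)
  simp only [os, e, pt_pt, neg_add_cancel, pt_zero] at o0 hs ⊢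
  rcases le_total i s with h | h
  · obtain ⟨k, rfl⟩ := Nat.exists_eq_add_of_le h
    have a1 := (var_up φ b r k).trans (sum_le_sum_of_subset_of_nonneg
      (range_subset_range.2 (by omega : k ≤ j + 1)) fun t _ _ => ww_nonneg φ b (pt b r t))
    rw [show -(i : ℤ) + ((i + k : ℕ) : ℤ) = k by push_cast; ring] at o0 ⊢
    exact (pow_le_pow_left₀ o0 a1 2).trans (le_add_of_nonneg_right (sq_nonneg _))
  · obtain ⟨k, rfl⟩ := Nat.exists_eq_add_of_le h
    have a1 := (var_dn φ b r k).trans (sum_le_sum_of_subset_of_nonneg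
      (range_subset_range.2 (by omega : k + 1 ≤ s + k + 1)) fun t _ _ => wd_nonneg φ b r t)
    rw [show -((s + k : ℕ) : ℤ) + (s : ℤ) = -k by push_cast; ring] at o0 ⊢
    exact (pow_le_pow_left₀ o0 a1 2).trans (le_add_of_nonneg_left (sq_nonneg _))

theorem Dat.up (h : Dat μ φ U lam TV A) (b : Bool) (r : ℤ × ℤ) (N : ℕ) :
    ∑ j ∈ range N, (∑ i ∈ range N, pp μ (b, pt b r (-i), i + j)) *
      (∑ t ∈ range (j + 1), ww φ b (pt b r t)) ^ 2 ≤ 1000000 *
        (lam * ∑ t ∈ range N, om t * ww φ b (pt b r t) + lam ^ 2 * (1 + FF μ N b r)) := by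
  have := h.gib.1
  rw [FF, sum_comm (s := range N) (t := range N)]
  have e : ∀ i k : ℕ, pt b (pt b r (-i)) ((i + k : ℕ) : ℤ) = pt b r k := fun i k => by
    rw [pt_pt]; congr 1; push_cast; ring
  refine real_Q (G := fun k => ∑ i ∈ range N, μ.real {f | Rdg b (pt b r (-i)) (i + k) f})
    (a := fun t => A (!b) (pt b r t)) (c := fun t => cc μ b (pt b r t))
    (d := fun t => cc μ b (pt b r t - dir b)) N h.lam0
    (fun k => sum_nonneg fun _ _ => pp_nonneg _ _) (fun k => ?_)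
    (fun k => sum_nonneg fun _ _ => measureReal_nonneg) (fun k => ?_) (fun _ => ww_nonneg _ _ _)
    (fun _ => h.A0 _ _) (fun _ => cc_le h.gib _ _) (fun _ => cc_nonneg _ _ _)
    (fun _ => cc_le h.gib _ _) (fun _ => cc_nonneg _ _ _) (fun _ => h.hw _ _) ?_ (fun k => ?_)
    (fun k => ?_) fun t l hl => ?_
  · have a := (sum_end h.gib b (pt b r k) ((range N).image (· + k))).trans measureReal_le_one
    rw [sum_image fun _ _ _ _ e => Nat.add_right_cancel e] at a
    refine le_trans (le_of_eq (sum_congr rfl fun i _ => ?_)) a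
    rw [pp, p_rev h.gib, pt_pt]
    congr 5
    push_cast
    ring_nf
  · rw [← sum_add_distrib]
    exact sum_congr rfl fun i _ => q_succ h.gib _ _ _
  · rcases N with _ | M
    · simp
    simp only [Nat.cast_zero, pt_zero, add_zero]
    rw [sum_range_succ', add_mul]
    have a1 := (mul_le_mul_of_nonneg_left (h.A1 (!b) r)
      (sum_nonneg fun _ _ => measureReal_nonneg)).trans (dual h.gib h.tri b (!b) r (range M))
    have a2 := (mul_le_mul_of_nonneg_right (real_mono h.gib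
      (E := {f | Rdg b (pt b r (-(0 : ℕ))) 0 f}) (F := {f | ¬ Hi (!b) r f}) fun f hf hE =>
        (not_hi hf _ _).2 (by simpa [pt_zero] using hE.2.2.2)) (h.A0 (!b) r)).trans (h.a0 (!b) r)
    linarith
  · rw [sum_mul]
    refine sum_le_sum fun i _ => ?_
    have := hz h.gib h.tri b (pt b r (-i)) (i + k)
    rwa [e] at this
  · rw [sum_mul]
    refine sum_le_sum fun i _ => ?_
    have := hz h.gib h.tri b (pt b r (-i)) (i + k)
    rwa [e, ← add_sub_cancel_right (pt b r k) (dir b), pt_add, ← Nat.cast_succ] at this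
  · rw [sum_mul, sum_comm, mul_sum]
    refine sum_le_sum fun i _ => ?_
    have := H21.corR_al h.gib h.tri b (pt b r (-i)) (m := i + t) (l := l) (by omega)
    rw [e] at this
    refine (mul_le_mul_of_nonneg_left (sub_le_sub_right (h.A1 _ _) _) measureReal_nonneg).trans
      (this.trans (le_of_eq ?_))
    congr 1
    refine sum_congr rfl fun j hj => ?_
    have := mem_range.1 hj
    rw [pp, show i + t - 1 - j = i + (t - 1 - j) by omega]

theorem Dat.dn (h : Dat μ φ U lam TV A) (b : Bool) (r : ℤ × ℤ) (N : ℕ) :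
    ∑ i ∈ range N, (∑ j ∈ range N, pp μ (b, pt b r (-i), i + j)) *
      (∑ t ∈ range (i + 1), wd φ b r t) ^ 2 ≤ 1000000 *
        (lam * ∑ t ∈ range N, om t * wd φ b r t + lam ^ 2 * (1 + FF μ N b r)) := by
  have := h.gib.1
  have e : ∀ j k : ℕ, pt b (pt b r j) (-((k + j : ℕ) : ℤ)) = pt b r (-k) := fun j k => by
    rw [pt_pt]; congr 1; push_cast; ring
  have e' : ∀ z, μ.real {f | Hi b z f} = cc μ b (z - dir b) := fun z => by
    simp only [cc, ← hi_iff, sub_add_cancel]
  refine real_Q (G := fun k => ∑ j ∈ range N, μ.real {f | Vly b (pt b r j) (k + j) f})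
    (a := fun t => A (!b) (pt b r (-t))) (c := fun t => cc μ b (pt b r (-t) - dir b))
    (d := fun t => cc μ b (pt b r (-t))) N h.lam0
    (fun k => sum_nonneg fun _ _ => pp_nonneg _ _) (fun k => ?_)
    (fun k => sum_nonneg fun _ _ => measureReal_nonneg) (fun k => ?_) (fun _ => wd_nonneg _ _ _ _)
    (fun _ => h.A0 _ _) (fun _ => cc_le h.gib _ _) (fun _ => cc_nonneg _ _ _)
    (fun _ => cc_le h.gib _ _) (fun _ => cc_nonneg _ _ _) (fun t => ?_) ?_ (fun k => ?_)
    (fun k => ?_) fun t l hl => ?_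
  · have a := (sum_start h.gib b (pt b r (-k)) ((range N).image (k + ·))).trans measureReal_le_one
    rwa [sum_image fun _ _ _ _ e => Nat.add_left_cancel e] at a
  · rw [← sum_add_distrib]
    refine sum_congr rfl fun j _ => ?_
    rw [q'_succ h.gib, e, pp, p_rev h.gib, Nat.add_right_comm]
  · have a := h.hw b (pt b r (-t))
    unfold wd
    split_ifs
    · linarith [ww_nonneg φ b (pt b r (-t))]
    · linarith
  · rcases N with _ | M
    · simp
    simp only [Nat.cast_zero, neg_zero, pt_zero, zero_add]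
    rw [sum_range_succ', add_mul]
    have a1 := (mul_le_mul_of_nonneg_left (h.A2 (!b) r)
      (sum_nonneg fun _ _ => measureReal_nonneg)).trans (dual' h.gib h.tri b (!b) r (range M))
    have a2 := (mul_le_mul_of_nonneg_right (real_mono h.gib
      (E := {f | Vly b (pt b r (0 : ℕ)) 0 f}) (F := {f | ¬ Lo (!b) r f}) fun f hf hE =>
        (not_lo hf _ _).2 (by simpa [pt_zero] using hE.2.2.1)) (h.A0 (!b) r)).trans (h.a0' (!b) r)
    linarith
  · rw [sum_mul]
    refine sum_le_sum fun j _ => ?_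
    have := hz' h.gib h.tri b (pt b r j) (k + j)
    rwa [e, e', ← p_rev h.gib] at this
  · rw [sum_mul]
    refine sum_le_sum fun j _ => ?_
    have := hz' h.gib h.tri b (pt b r j) (k + j)
    rwa [e, e', ← p_rev h.gib, pt_sub, show -(k : ℤ) - 1 = -((k + 1 : ℕ) : ℤ) by
      push_cast; ring] at this
  · rw [sum_mul, sum_comm, mul_sum]
    refine sum_le_sum fun j _ => ?_
    have := H21.corV_al h.gib h.tri b (pt b r j) (m := t + j) (l := l) (by omega)
    rw [e] at this
    refine (mul_le_mul_of_nonneg_left (sub_le_sub_right (h.A2 _ _) _) measureReal_nonneg).trans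
      (this.trans (le_of_eq ?_))
    congr 1
    refine sum_congr rfl fun i hi => ?_
    have := mem_range.1 hi
    rw [pp, show t + j - 1 - i = (t - 1 - i) + j by omega, e, p_rev h.gib]

theorem Dat.shift (h : Dat μ φ U lam TV A) (b : Bool) (t : ℤ) :
    ∑ r ∈ U, ww φ b (pt b r t) ≤ TV := by
  have := h.tv b (U.image fun r => pt b r t)
  rwa [sum_image (g := fun r => pt b r t) fun _ _ _ _ e => add_right_cancel e] at this

theorem Dat.wsum (h : Dat μ φ U lam TV A) (N : ℕ) {w : ℤ × ℤ → ℕ → ℝ}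
    (hw : ∀ t, ∑ r ∈ U, w r t ≤ TV) : ∑ r ∈ U, ∑ t ∈ range N, om t * w r t ≤ 2 * TV := by
  rw [sum_comm]
  calc _ ≤ ∑ t ∈ range N, om t * TV := sum_le_sum fun t _ => by
        rw [← mul_sum]
        exact mul_le_mul_of_nonneg_left (hw t) (om_pos t).le
    _ ≤ _ := by
        rw [← sum_mul]
        exact mul_le_mul_of_nonneg_right (om_sum N) h.tv0

theorem Dat.qq (h : Dat μ φ U lam TV A) {FM : ℝ} (hF : ∀ N b, ∑ r ∈ U, FF μ N b r ≤ FM) (n : ℕ) :
    QQ μ n φ ≤ 8000000 * (lam * TV) + 4000000 * (lam ^ 2 * (U.card + FM)) := by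
  refine (rei μ n U (h := fun m t => os φ m t ^ 2) (H := fun b r i j =>
    (∑ t ∈ range (j + 1), ww φ b (pt b r t)) ^ 2 + (∑ t ∈ range (i + 1), wd φ b r t) ^ 2)
    (fun _ _ _ _ => by positivity) (fun m t ht e => h.supp _ fun e' => e ?_) (os_le φ)).trans ?_
  · have a1 := os_nonneg φ m ht
    have a2 := ps_nonneg h.h0 m
    unfold os at *
    rw [show φ (pt m.1 m.2.1 t) - ps φ m = 0 by linarith]
    norm_num
  have key : ∀ b, ∑ r ∈ U, ∑ i ∈ range (2 * n + 1), ∑ j ∈ range (2 * n + 1),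
      pp μ (b, pt b r (-i), i + j) * ((∑ t ∈ range (j + 1), ww φ b (pt b r t)) ^ 2 +
        (∑ t ∈ range (i + 1), wd φ b r t) ^ 2) ≤
      4000000 * (lam * TV) + 2000000 * (lam ^ 2 * (U.card + FM)) := by
    intro b
    have a1 := h.wsum (2 * n + 1) (w := fun r t => ww φ b (pt b r t)) fun t => h.shift b t
    have a2 := h.wsum (2 * n + 1) (w := wd φ b) fun t => by
      unfold wd
      split_ifs
      · simpa using h.tv0
      · exact h.shift b _
    have a3 := mul_le_mul_of_nonneg_left (hF (2 * n + 1) b) (sq_nonneg lam)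
    have a4 := sum_le_sum fun r (_ : r ∈ U) => add_le_add (h.up b r (2 * n + 1))
      (h.dn b r (2 * n + 1))
    refine le_trans (le_of_eq (sum_congr rfl fun r _ => ?_)) (a4.trans ?_)
    · simp only [mul_add, sum_add_distrib, sum_mul]
      rw [sum_comm]
    · simp only [mul_add, sum_add_distrib, ← mul_sum, sum_const, nsmul_eq_mul]
      nlinarith [mul_le_mul_of_nonneg_left a1 h.lam0, mul_le_mul_of_nonneg_left a2 h.lam0]
  rw [Fintype.sum_bool]
  linarith [key true, key false]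

theorem q_row : QStmt := by
  refine ⟨9000000, by norm_num, fun μ φ U lam TV A h FM hF n => ?_⟩
  have a1 := h.qq hF n
  have a2 := mul_le_mul_of_nonneg_left (ll_le hF n) (sq_nonneg lam)
  have a3 := mul_nonneg h.lam0 h.tv0
  have a4 : 0 ≤ FM := by simpa [FF] using hF 0 true
  have a5 := mul_nonneg (sq_nonneg lam) a4
  have a6 := mul_nonneg (sq_nonneg lam) (Nat.cast_nonneg (α := ℝ) U.card)
  unfold Bd
  nlinarith

end Pool.Agent.MP_151d89_pr.H67E
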